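import Pool.Agent.H11.NZ.Targets

set_option autoImplicit false

open Equiv (Perm)

namespace Pool.Agent.H49.NZ.FX

open Pool.Agent.H11.NZ
open Pool.Agent.H11.NY

theorem hpair_mono {L Ω : Type} [Group L] [Fintype Ω] [DecidableEq Ω]
    {ψ : L →* alternatingGroup Ω} {e B B' q p : ℕ} {a h : L} (hB : B' ≤ B)
    (H : HPair ψ e B q p a h) : HPair ψ e B' q p a h := by
  obtain ⟨h1, h2, h3, h4, h5, h6, h7, h8, h9, h10, h11⟩ := H
  exact ⟨h1, h2, h3, h4, h5, h6, h7, h8, h9, h10, fun i j hij => hB.trans (h11 i j hij)⟩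

/-- four indices, three excluded values -/
theorem pigeon (q p : Fin 4 → ℕ) (hq : Function.Injective q) (hp : Function.Injective p)
    (r l : ℕ) : ∃ i, q i ≠ r ∧ q i ≠ l ∧ p i ≠ l := by
  classical
  by_contra hcon
  push Not at hcon
  let f : Fin 4 → Fin 3 := fun i => if q i = r then 0 else if q i = l then 1 else 2
  obtain ⟨i, j, hij, hf⟩ := Fintype.exists_ne_map_eq_of_card_lt f (by simp)
  have key : ∀ i, (f i = 0 → q i = r) ∧ (f i = 1 → q i = l) ∧ (f i = 2 → p i = l) := by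
    intro i
    simp only [f]
    by_cases h1 : q i = r
    · simp [h1]
    · by_cases h2 : q i = l
      · rw [if_neg h1, if_pos h2]
        simp [h2]
      · rw [if_neg h1, if_neg h2]
        simp [hcon i h1 h2]
  obtain ⟨a1, a2, a3⟩ := key i
  obtain ⟨b1, b2, b3⟩ := key j
  rcases (show ∀ x : Fin 3, x = 0 ∨ x = 1 ∨ x = 2 by decide) (f i) with h | h | h
  · exact hij (hq ((a1 h).trans (b1 (hf ▸ h)).symm))
  · exact hij (hq ((a2 h).trans (b2 (hf ▸ h)).symm))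
  · exact hij (hp ((a3 h).trans (b3 (hf ▸ h)).symm))

theorem pf_fx : T_XE → T_FX1 → T_OP → T_I4X → T_FX := by
  intro hXE hFX1 hOP hI4 e c l
  obtain ⟨B₁, hB₁⟩ := hFX1 e c l
  refine ⟨B₁ + l * (e + 2 * c + 5) + 6, ?_⟩
  intro L Ω _ _ _ _ ψ hψ hSch q p a h P hHP hq hP1 hP2 hP3 hP4 hopt g hl hpl hg hB S hS hSs
  have hsupp : (ψ g : Perm Ω).support.card ≤ Fintype.card Ω := Finset.card_le_univ _
  obtain ⟨X, hX⟩ := hXE L Ω ψ (by omega) hψ
  have hXn : X.Normal := hX.1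
  have hN : (ψ.ker ⊓ X).Normal := inferInstance
  have hSch' : Sch (ψ.ker ⊓ X) := fun T _ hT A f hA hf =>
    hSch T hT A f (hA.trans inf_le_left) hf
  have hHP' : ∀ i, HPair ψ e B₁ (q i) (p i) (a i) (h i) := fun i =>
    hpair_mono (by omega) (hHP i)
  -- the common end
  have main : ∀ K₀ : Subgroup L, K₀.Normal → K₀ ≤ ψ.ker ⊓ X → (∀ i, ¬ q i ∣ Nat.card K₀) →
      ¬ l ∣ Nat.card K₀ →
      (∀ l' : ℕ, l'.Prime → ∀ A : Subgroup L, A.Normal → K₀ < A → A ≤ ψ.ker ⊓ X →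
        (∀ x ∈ A, ∃ k : ℕ, x ^ (l' ^ k) ∈ K₀) →
        ∀ r : ℕ, r.Prime → ∃ i, q i ≠ r ∧ q i ≠ l' ∧ p i ≠ l') → c ≤ S.index := by
    intro K₀ hK hK2 hqK hlK hlast
    rcases hB₁ L Ω ψ X hX hSch' K₀ hK hK2 q p a h P hHP' hqK hP1 hP2 hP3 hP4 hlast with H | H
    · have h1 := hI4 L Ω ψ X hX K₀ hK (hK2.trans inf_le_left) l e (e + 2 * c + 5) hl hlK H
        (by omega) (by omega) g hg (by omega) S hS hSs
      have h2 := Nat.self_le_factorial (e + 2 * c + 5)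
      omega
    · exact H g hl hlK hg (by omega) S hS hSs
  rcases hopt with ⟨p₀, hp₀⟩ | hp
  · have hp₀p : p₀.Prime := by
      have := (hHP 0).2.2.2.1
      rw [(hp₀ 0).1] at this
      exact this
    obtain ⟨K₂, hK1, -, hK3, hK4, hK5⟩ := hOP L p₀ (ψ.ker ⊓ X) ⊥ hp₀p hN inferInstance bot_le
    have hcard : ∀ r : ℕ, r.Prime → r ∣ Nat.card K₂ → r = p₀ := by
      intro r hr hdvd
      have := Fact.mk hr
      obtain ⟨x, hx⟩ := exists_prime_orderOf_dvd_card' r hdvd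
      obtain ⟨k, hk⟩ := hK4 (x : L) x.2
      have h1 : (x : L) ^ (p₀ ^ k) = 1 := (Subgroup.mem_bot).1 hk
      have h2 : orderOf (x : L) ∣ p₀ ^ k := orderOf_dvd_of_pow_eq_one h1
      rw [Subgroup.orderOf_coe, hx] at h2
      exact (Nat.prime_dvd_prime_iff_eq hr hp₀p).1 (hr.dvd_of_dvd_pow h2)
    refine main K₂ hK1 hK3 ?_ ?_ ?_
    · intro i hi
      exact (hp₀ i).2 (hcard _ (hHP i).1 hi)
    · intro hi
      have h1 := hcard _ hl hi
      exact hpl 0 ((hp₀ 0).1.trans h1.symm)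
    · intro l' hl' A hA hKA hAN hpow r hr
      have hne : p₀ ≠ l' := by
        rintro rfl
        exact hKA.ne (hK5 A hA hKA.le hAN hpow).symm
      obtain ⟨i, h1, h2, -⟩ := pigeon q q hq hq r l'
      exact ⟨i, h1, h2, by rw [(hp₀ i).1]; exact hne⟩
  · refine main ⊥ inferInstance bot_le ?_ ?_ ?_
    · intro i hi
      rw [Subgroup.card_bot] at hi
      exact (hHP i).1.one_lt.ne' (Nat.dvd_one.1 hi)
    · intro hi
      rw [Subgroup.card_bot] at hi
      exact hl.one_lt.ne' (Nat.dvd_one.1 hi)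
    · intro l' _ A _ _ _ _ r _
      exact pigeon q p hq hp r l'

end Pool.Agent.H49.NZ.FX
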